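import Mathlib
import Pool.Agent.Lib.MP_dd9c4c_nt.Sc.Final

namespace Pool.Agent.Results.MP_dd9c4c_nt.Counterexample

open AlgebraicGeometry Pool.Agent.Lib.MP_dd9c4c_nt Pool.Agent.Lib.MP_dd9c4c_nt.Sc

theorem result (F : Type) [Field F] [Fintype F] (hq : 61 ≤ Fintype.card F) (h2 : (2 : F) ≠ 0) :
    ∃ (S ι : Type) (_ : CommRing S) (_ : Algebra (RatFunc F) S)
      (𝒜 : ℕ → Submodule (RatFunc F) S) (_ : GradedAlgebra 𝒜) (_ : Finite ι) (x : ι → S)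
      (hx : ∀ i, x i ∈ 𝒜 1) (_ : IsIntegral (Proj 𝒜)) (t : ℕ),
      Algebra.adjoin (RatFunc F) (Set.range x) = ⊤ ∧ Smooth (strMap 𝒜) ∧
      GeometricallyIntegral (strMap 𝒜) ∧ Anticanonical 𝒜 x hx ∧
      Vanish (addSheaf (Proj 𝒜)) 1 ∧ Vanish (addSheaf (Proj 𝒜)) 2 ∧
      DenseRange (Pt.pt (𝒜 := 𝒜)) ∧ rankH1 (unitSheaf (Proj 𝒜)) = t ∧
      ∀ U₀ : (Proj 𝒜).Opens, Dense (U₀ : Set (Proj 𝒜)) → ∃ U ≤ U₀, Dense (U : Set (Proj 𝒜)) ∧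
        ¬ HasPole (Fintype.card F) (ht x F) {p : Pt 𝒜 | p.pt ∈ U} t :=
  final F hq h2

end Pool.Agent.Results.MP_dd9c4c_nt.Counterexample
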